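import Mathlib
import Pool.Agent.Run7.h31.ES.PoleConv

/-!
# The orders of the poles of the zeta functions of abelian varieties over finite fields: an exact
criterion with the slopes of the factors of the characteristic polynomial of Frobenius

Let `π i` be finitely many Weil numbers for `q = p ^ a`, pairwise not conjugate, that generate CM fields
`K i` (`IsWeilFamily`); by Honda and Tate they belong to the isogeny classes of simple abelian varieties
`A i` over the field `k` with `q` elements. Nothing is assumed about the degrees, the Galois groups,
the subfields and the mutual position of the fields `K i`.

The formula of Tate (`PoleOrders`): **for all abelian varieties `X` over `k` that are isogenous to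
products of powers of the `A i`, all finite extensions of `k` and all `n`, the order of the pole at
`s = n` of the zeta function of `X` (of `L(H^{2 n}(X), s)`) is equal to the rank of the group
generated by the intersections of `n` divisors on `X`.** In terms of `V = H^1` with the Frobenius
endomorphism `F` the zeta function is the alternating product of the characteristic polynomials of
`⋀ ^ j F` and the classes of the divisors are the eigenvectors in `⋀ ^ 2 V` with the eigenvalue `q`
(Tate). The rank of `A^n(X)` lies between these two numbers, so the formula implies the conjecture
of Tate for `X` (the question is about the equality of the order and the rank of `A^n(X)`).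

For a monic polynomial `g` over `K i` whose roots are Weil numbers for `q` let
`slope g (τ) = 2 ord_p (τ (g 0)) - a * deg g`, a function on the embeddings `τ` of `K i` in the
algebraic closure of `ℚ_p`. For the factor `X - π i` it is `dev (π i) = 2 ord_p (τ (π i)) - a`.
`SlopesIndependent`: for every `i` the function `dev (π i)` is not a rational linear combination of
the slope functions of the other irreducible factors, over `K i`, of the minimal polynomials of all
`π l` (besides `X - π i` and `X - conj (π i)`).

The theorem:

* **`PoleOrders` is true if and only if the slopes are independent.**
* It is true if the slopes dominate (`Dominates`): there are positive rational numbers `w i` such that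
  for every `i` there is an embedding `τ` of `K i` where the sum of the `|slope h (τ)| / w l` over the
  other factors `h` (of the minimal polynomials of the `π l`) is less than `2 |dev (π i) (τ)| / w i`.
* Let the minimal polynomials of the `π l`, `l ≠ i`, have only factors with real constant
  coefficients over the fields `K i` (`RealCrossFactors`), for instance let them be irreducible over
  `K i`. Then the formula is true for the products of powers of the `A i` if and only if it is true
  for the powers of each `A i`.

The condition is a finite computation in the fields `K i`; no splitting field is needed. The
starting results need one of: large Galois groups, degrees that are (twice) powers of prime numbers,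
types of slopes that occur for almost all, special slopes like those of K3 type; none of them gives
a condition that is necessary and sufficient for all abelian varieties.

The proof. (If) Let a product of powers of the conjugates of the `π i` be a power of `q` up to a root
of unity, and let `n (i, φ)` be the exponent of `φ (π i)` minus the one of its complex conjugate. The
`p`-adic valuations of the images under the Galois automorphisms `σ` of a common Galois extension
give `∑ n (i, φ) dev (σ φ) = 0`. If `n ≠ 0` we choose `(i, φ)` with `w i |n|` maximal and take the
mean over the stabiliser of `φ`. This gives a representation of `dev (π i)` by the slope
functions of the other factors, with coefficients `b` such that `2 w l |b| ≤ w i`. So there are no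
relations, and the generalized eigenspaces for powers of `q` in `⋀ V` are generated in degree two
(the passage to the poles is in the starting files `H194R3`, `H868R3`). (Only if) A representation
of `dev (π i)` by the other slope functions gives a product of powers of conjugates all of whose
absolute values, archimedean and nonarchimedean, are one (Honda's argument), so a root of unity. Then
`q ^ T` is a product of `2 T` conjugates which are not in complex conjugate pairs. Let `V` be the
Frobenius module with these `2 T` eigenvalues. `⋀ ^ (2 T) V` is one-dimensional with the eigenvalue
`q ^ T`, so the order of the pole is one; but a diagonal operator which commutes with Frobenius and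
acts trivially on the classes of the divisors acts nontrivially on it, so it is not a product
of classes of divisors.
-/

set_option autoImplicit false

namespace Pool.Agent.Results.MP_223b32_ag.ExactSlopes

open NumberField Run7.h31.ES Pool.Agent.Run7.h142.TF

/-- **The exact criterion for the formula of Tate for the orders of the poles.** -/
theorem result (p : ℕ) [Fact p.Prime] (a : ℕ) (ha : 0 < a) (I : Type) [Fintype I] (K : I → Type)
    [∀ i, Field (K i)] [∀ i, NumberField (K i)] [∀ i, IsCMField (K i)] (π : ∀ i, K i)
    (h : IsWeilFamily p (fun _ => a) π) :
    (PoleOrders p a K π ↔ SlopesIndependent p (fun _ => a) π) ∧
    (∀ w : I → ℚ, (∀ i, 0 < w i) → Dominates p (fun _ => a) π w → PoleOrders p a K π) ∧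
    (RealCrossFactors π →
      (PoleOrders p a K π ↔ ∀ i, PoleOrders p a (fun _ : Unit => K i) (fun _ => π i))) := by
  refine ⟨poleOrders_iff ha h, fun w hw hd => ?_, fun hr => ?_⟩
  · exact (poleOrders_iff ha h).2
      ((noSmall_iff h.generates h.distinct h.integral h.weil w hw).1 (noSmall_of_dominates hw hd))
  · have h1 : ∀ i, IsWeilFamily (I := Unit) (K := fun _ => K i) p (fun _ => a) (fun _ => π i) :=
      fun i => ⟨fun _ => h.integral i, fun _ => h.generates i, fun _ => h.weil i,
        fun _ _ _ => rfl⟩
    rw [poleOrders_iff ha h, independent_iff_single h.weil hr]
    exact forall_congr' fun i => (poleOrders_iff ha (h1 i)).symm

end Pool.Agent.Results.MP_223b32_ag.ExactSlopes
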