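import Pool.Agent.Run7.h642.NG.Es

/-!
# The pole of the L-function of `H²` for surfaces which are fibred over the line in curves `C_ab`

Let `M` be a finitely generated field of characteristic zero and of transcendence degree `d` over `ℚ`,
and let `K = M(w_0, ..., w_l)` be the field of rational functions in `l + 1` variables over `M`, so that
`dim_a(K) = d + l + 2`.  Let `a` and `b` be coprime positive integers, `n ≥ 1`, and let `X` be the surface
over `K` with the equation

  `H(t, x, y) = y^a - x^b + ∑ h_ij(t) x^i y^j = 0`,  `deg h_ij ≤ n (ab - ai - bj)`,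

where the sum is over `a i + b j < a b`.  It is projective: near `t = ∞` one puts `t = 1 / t'`,
`x = x' / t'^(a n)`, `y = y' / t'^(b n)`, and the fibre at `t = ∞` is `H_∞(x', y') = 0`, where the
coefficient of `x'^i y'^j` is the coefficient of `t^(n (ab - ai - bj))` in `h_ij`; on every fibre of
`X → ℙ¹` there is one more point, which is rational and smooth: the section `O`.  For instance these are
all elliptic surfaces over `ℙ¹` with a section and with irreducible fibres (`a = 2`, `b = 3`, `χ(𝒪) = n`:
rational surfaces for `n = 1` and K3 surfaces for `n = 2`), and the surfaces fibred in hyperelliptic and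
superelliptic curves `y^a = f(t, x)`.

The algebraic side.  All the fibres of `X → ℙ¹` are irreducible, and `H¹(X, 𝒪) = 0` as `n ≥ 1`.  Thus, if
`X` is smooth, then `rank A¹(X) = rank NS(X/K) = 2 + rank J(K(t))` (Shioda–Tate), where `J` is the Jacobian
of the generic fibre, and `J(K(t))` is the class group of the ring `K(t)[x, y] / (H)`.  We prove that this
rank is finite.

We assume that the total space of the family is rational over `M`, that is, that the function field of `X`
is purely transcendental over `M`.  This holds for the generic member of every linear system of such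
surfaces over `M`.

The analytic side: for every model of `K` and of the surface, the Euler product
`L(s) = ∏_y det(1 - Frob_y N(y)^{-s} | H²)⁻¹` over the closed points has an analytic continuation
to `Re s > s_0 = 1 + dim_a(K) = d + l + 3` and a meromorphic continuation to a neighbourhood of `s_0`, and
it has at `s_0` a pole of the order `2 + rank J(K(t)) = rank A¹(X)`.  For a smooth fibre the local factor is
`exp (∑_{j ≥ 1} b_j T ^ j / j)`, where `T = N(y) ^ {-s}` and `b_j = #X_y(κ_j) - 1 - N(y)^{2 j}` is the trace of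
the `j`-th power of the Frobenius on `H²` of the fibre (`H¹ = H³ = 0`), with the extension `κ_j` of the
residue field of `y` of degree `j`.
-/

set_option autoImplicit false

namespace Pool.Agent.Results.MP_223b32_ag.FibredSurfaces

open Polynomial

/-- The polynomial is `y^a - x^b` plus monomials `x^i y^j` with `a i + b j < a b`. Here `x` is the inner
and `y` is the outer variable. -/
def IsCab {R : Type} [CommRing R] (a b : ℕ) (H : R[X][X]) : Prop :=
  ∀ i j : ℕ, ((H - (X ^ a - C (X ^ b))).coeff j).coeff i ≠ 0 → a * i + b * j < a * b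

/-- The derivative with respect to the inner variable. -/
noncomputable def derivX {R : Type} [CommRing R] (H : R[X][X]) : R[X][X] :=
  Bivariate.swap (derivative (Bivariate.swap H))

/-- The affine curve `H = 0` is smooth: `H` and its two partial derivatives generate the unit ideal. -/
def IsSmooth {R : Type} [CommRing R] (H : R[X][X]) : Prop :=
  Ideal.span {H, derivative H, derivX H} = ⊤

/-- The function field of the curve `P = 0` over the field `L` is purely transcendental over the subfield
`M` of `L`, of transcendence degree `t`. -/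
def RationalOver (M : Type) {L : Type} [Field M] [Field L] [Algebra M L] (P : L[X][X]) (t : ℕ) : Prop :=
  ∃ (E : Type) (_ : Field E) (_ : Algebra M E) (_ : Algebra L E) (_ : Algebra (AdjoinRoot P) E)
    (z : Fin t → E), IsScalarTower M L E ∧ IsScalarTower L (AdjoinRoot P) E ∧
      IsFractionRing (AdjoinRoot P) E ∧ AlgebraicIndependent M z ∧
        IntermediateField.adjoin M (Set.range z) = ⊤

/-- The ring `L[x, y] / (P)` is a Dedekind domain, and `n` is the rank of its class group. -/
def ClassGroupHasRank {L : Type} [Field L] (P : L[X][X]) (n : ℕ) : Prop :=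
  ∃ _ : IsDedekindDomain (AdjoinRoot P),
    Module.rank ℤ (Additive (ClassGroup (AdjoinRoot P))) = (n : Cardinal)

/-- The equation of the surface as the equation of a curve over the field `K(t)`: the generic fibre. -/
noncomputable def generic {K : Type} [Field K] (H : K[X][X][X]) : (RatFunc K)[X][X] :=
  H.map (mapRingHom (algebraMap K[X] (RatFunc K)))

/-- The equation of the fibre at `t = ∞`: the coefficient of `x^i y^j` is the coefficient of
`t^(n (ab - ai - bj)) x^i y^j`. -/
noncomputable def atInfinity {R : Type} [CommRing R] (a b n : ℕ) (H : R[X][X][X]) : R[X][X] :=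
  ∑ j ∈ Finset.range (a + 1), C (∑ i ∈ Finset.range (b + 1),
    C (((H.coeff j).coeff i).coeff (n * (a * b - (a * i + b * j)))) * X ^ i) * X ^ j

/-- The number `N(y)` of the elements of the residue field of a closed point. -/
noncomputable def norm {R : Type} [CommRing R] (y : MaximalSpectrum R) : ℕ := Nat.card (R ⧸ y.asIdeal)

/-- The number of the points of the surface `P(t, x, y) = 0` over the field `F` with coordinates in the
subset of the elements with `α ^ m = α`: the points with `t ≠ ∞` outside the section, the points with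
`t = ∞` outside the section, and the `m + 1` points of the section. -/
noncomputable def pointsOver (a b n : ℕ) {F : Type} [Field F] (P : F[X][X][X]) (m : ℕ) : ℕ :=
  Nat.card {Q : F × F × F // Q.1 ^ m = Q.1 ∧ Q.2.1 ^ m = Q.2.1 ∧ Q.2.2 ^ m = Q.2.2 ∧
    evalEval Q.2.1 Q.2.2 (P.map (mapRingHom (evalRingHom Q.1))) = 0} +
  Nat.card {z : F × F // z.1 ^ m = z.1 ∧ z.2 ^ m = z.2 ∧ evalEval z.1 z.2 (atInfinity a b n P) = 0} +
  (m + 1)

/-- The number of the points of the fibre of the surface `G(t, x, y) = 0` over the closed point `y`, with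
values in the subfield of the algebraic closure of the residue field which consists of the elements with
`α ^ m = α`.  For `m = N(y) ^ j` this is the number of the points of the fibre over the extension of
degree `j` of the residue field. -/
noncomputable def points {R : Type} [CommRing R] (a b n : ℕ) (G : R[X][X][X]) (y : MaximalSpectrum R)
    (m : ℕ) : ℕ :=
  letI : Field (R ⧸ y.asIdeal) := Ideal.Quotient.field y.asIdeal
  pointsOver a b n (G.map (mapRingHom (mapRingHom
    ((algebraMap (R ⧸ y.asIdeal) (AlgebraicClosure (R ⧸ y.asIdeal))).comp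
      (Ideal.Quotient.mk y.asIdeal))))) m

/-- The local factor `exp (∑ b_j T ^ j / j)`, where `b_j = #(points over the extension of degree j) - 1 -
N(y) ^ (2 j)` and the sum is over `j ≥ 1`.  For a smooth fibre this is `det(1 - T Frob | H²)⁻¹`. -/
noncomputable def factor {R : Type} [CommRing R] (a b n : ℕ) (G : R[X][X][X]) (y : MaximalSpectrum R)
    (T : ℂ) : ℂ :=
  Complex.exp (∑' j : ℕ, ((points a b n G y (norm y ^ (j + 1)) : ℂ) - 1 -
    ((norm y ^ (j + 1) : ℕ) : ℂ) ^ 2) / ((j + 1 : ℕ) : ℂ) * T ^ (j + 1))

theorem points_eq {R : Type} [CommRing R] (a b n : ℕ) (G : R[X][X][X]) (y : MaximalSpectrum R) (m : ℕ) :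
    points a b n G y m = Pool.Agent.Run7.h642.NG.pts3 (Pool.Agent.TH958.An.Res y)
      (G.map (mapRingHom (mapRingHom (Ideal.Quotient.mk y.asIdeal)))) m +
      Pool.Agent.Run7.h954.CP.pts2 (Pool.Agent.TH958.An.Res y)
        ((Pool.Agent.Run7.h642.NG.tinf a b n G).map (mapRingHom (Ideal.Quotient.mk y.asIdeal))) m +
      (m + 1) := by
  unfold points pointsOver Pool.Agent.Run7.h642.NG.pts3 Pool.Agent.Run7.h954.CP.pts2
  rw [Polynomial.map_map, mapRingHom_comp, mapRingHom_comp, Polynomial.map_map, mapRingHom_comp,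
    Pool.Agent.Run7.h642.NG.tinf_map]
  rfl

theorem factor_eq {R : Type} [CommRing R] (a b n : ℕ) (G : R[X][X][X]) (y : MaximalSpectrum R) (s : ℂ)
    (hq : norm y ≠ 0) :
    factor a b n G y ((norm y : ℂ) ^ (-s)) =
      Pool.Agent.R410.EP.ZG (Pool.Agent.Run7.h642.NG.t3 G (Pool.Agent.Run7.h642.NG.tinf a b n G)) y
        ((Pool.Agent.TH958.An.qy y : ℂ) ^ (-(s - 1))) := by
  have hq' : (norm y : ℂ) ≠ 0 := by exact_mod_cast hq
  have e1 : (norm y : ℂ) ^ (-(s - 1)) = (norm y : ℂ) * (norm y : ℂ) ^ (-s) := by
    rw [show -(s - 1) = 1 + -s by ring, Complex.cpow_add _ _ hq', Complex.cpow_one]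
  have e2 : (Pool.Agent.TH958.An.qy y : ℂ) ^ (-(s - 1)) = (norm y : ℂ) * (norm y : ℂ) ^ (-s) := e1
  rw [e2]
  unfold factor Pool.Agent.R410.EP.ZG Pool.Agent.Run7.h642.NG.t3
  congr 1
  refine tsum_congr fun j => ?_
  rw [points_eq]
  have e3 : Pool.Agent.TH958.An.qy y = norm y := rfl
  rw [e3, mul_pow]
  push_cast
  field_simp

/-- **The analytic Tate conjecture in codimension one for the surfaces
`y^a - x^b + ∑ h_ij(t) x^i y^j = 0` over `M(w_0, ..., w_l)`, fibred over the `t`-line, with a rational total
space, for an arbitrary finitely generated field `M` of characteristic zero and for every model.** -/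
theorem result {M : Type} [Field M] [CharZero M]
    (hM : ∃ S : Finset M, Subfield.closure (S : Set M) = ⊤) {d : ℕ} (hd : Algebra.trdeg ℚ M = d)
    {K : Type} [Field K] [CharZero K] [Algebra M K] {l : ℕ} {w : Fin (l + 1) → K}
    (hw : AlgebraicIndependent M w) (hK : IntermediateField.adjoin M (Set.range w) = ⊤)
    {a b n : ℕ} (ha : 0 < a) (hb : 0 < b) (hab : a.Coprime b) (_hn : 1 ≤ n) {H : K[X][X][X]}
    (hH : IsCab a b H)
    (_hdeg : ∀ i j, a * i + b * j < a * b →
      ((H.coeff j).coeff i).natDegree ≤ n * (a * b - (a * i + b * j)))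
    -- the generic fibre over the `t`-line is smooth
    (hs : IsSmooth (generic H))
    -- the function field of the surface is purely transcendental over `M`
    (hE : RationalOver M (generic H) (l + 3)) :
    Algebra.trdeg ℚ K = (d + l + 1 : ℕ) ∧
    ∃ ρ : ℕ,
      -- the algebraic side: the rank of `J(K(t))`
      ClassGroupHasRank (generic H) ρ ∧
      -- the analytic side: the Euler product, for every model
      ∀ (R : Type) [CommRing R] [IsDomain R] [Algebra.FiniteType ℤ R] [Algebra R K]
        [IsFractionRing R K] (G : R[X][X][X]),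
        G.map (mapRingHom (mapRingHom (algebraMap R K))) = H →
          ∀ N : R, N ≠ 0 → ∃ Φ : ℂ → ℂ,
            (∀ s : ℂ, ((d + l + 3 : ℕ) : ℝ) + 1 / 2 < s.re →
              HasProd (fun y : {y : MaximalSpectrum R // N ∉ y.asIdeal} =>
                factor a b n G y.1 ((norm y.1 : ℂ) ^ (-s))) (Φ s)) ∧
            DifferentiableOn ℂ Φ {s : ℂ | ((d + l + 3 : ℕ) : ℝ) < s.re} ∧
            MeromorphicAt Φ ((d + l + 3 : ℕ) : ℂ) ∧
            -- the order of the pole is `2 + ρ`
            meromorphicOrderAt Φ ((d + l + 3 : ℕ) : ℂ) = ((-(2 + ρ) : ℤ) : WithTop ℤ) := by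
  classical
  have hcK : CharZero (RatFunc K) := charZero_of_injective_algebraMap
    (algebraMap K (RatFunc K)).injective
  have hH1 : Pool.Agent.Run7.h954.CP.IsCab a b H := hH
  have hH' : Pool.Agent.Run7.h954.CP.IsCab a b (generic H) :=
    hH1.map (algebraMap K[X] (RatFunc K))
  have hs' : Pool.Agent.Run7.h954.CP.IsSmooth (generic H) := hs
  have hded : IsDedekindDomain (AdjoinRoot (generic H)) :=
    Pool.Agent.Run7.h954.CP.dedekind_cab ha hb hab hH' hs'
  have htr : Algebra.trdeg ℚ K = (d + (l + 1) : ℕ) := Pool.Agent.Run7.h954.CP.trdeg_rat hw hK hd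
  have hKF : Pool.Agent.R410.LW.FG K := Pool.Agent.Run7.h954.CP.fg_rat hM hK
  obtain ⟨E, i1, i2, i3, i4, z, i5, i6, i7, hz, hzE⟩ := hE
  obtain ⟨ρ, hρ, hm⟩ := Pool.Agent.Run7.h954.CP.rank_asy hM hd
    (Pool.Agent.Run7.h642.NG.consX_indep hw) (Pool.Agent.Run7.h642.NG.consX_top hK) hz hzE ha hb hab hH'
  refine ⟨htr, ρ, ⟨hded, hρ⟩, ?_⟩
  intro R _ _ _ _ _ G hG N hN
  -- the model of `K(t)`
  have hiR : Function.Injective (algebraMap R K) := IsFractionRing.injective R K
  let _ : Algebra R[X] (RatFunc K) :=
    ((algebraMap K[X] (RatFunc K)).comp (mapRingHom (algebraMap R K))).toAlgebra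
  have hiRX : Function.Injective (algebraMap R[X] (RatFunc K)) :=
    (RatFunc.algebraMap_injective K).comp (Polynomial.map_injective _ hiR)
  have hfr : IsFractionRing R[X] (RatFunc K) := Pool.Agent.Run7.h642.NG.frac_poly rfl
  have hft : @Algebra.FiniteType ℤ R[X] _ _ (Ring.toIntAlgebra _) := by
    have h1 : Algebra.FiniteType R R[X] := inferInstance
    exact Pool.Agent.R410.LW.ft_int _
      (Algebra.FiniteType.trans (inferInstance : Algebra.FiniteType ℤ R) h1)
  have hG2 : G.map (mapRingHom (algebraMap R[X] (RatFunc K))) = generic H := by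
    unfold generic
    rw [← hG, Polynomial.map_map, mapRingHom_comp]
    rfl
  have h2 := hm R[X] G hG2 (C N) (by rwa [Ne, C_eq_zero])
  have hGc : Pool.Agent.Run7.h954.CP.IsCab a b G := Pool.Agent.Run7.h954.CP.IsCab.of_map
    (algebraMap R[X] (RatFunc K)) hiRX (by rw [hG2]; exact hH')
  have hGi : Pool.Agent.Run7.h954.CP.IsCab a b (Pool.Agent.Run7.h642.NG.tinf a b n G) :=
    Pool.Agent.Run7.h642.NG.tinf_cab n hGc
  have h3 := Pool.Agent.Run7.h642.NG.asy_fs hKF htr ha hb hab hGi hN ρ h2
  obtain ⟨Φ, p1, p2, p3, p4⟩ := Pool.Agent.Run7.h642.NG.euler_fs (K := K) hKF htr ha hb hab hGc hGi h3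
  have hsub : AnalyticAt ℂ (fun s : ℂ => s - 1) ((d + l + 3 : ℕ) : ℂ) := by fun_prop
  have e0 : ((d + l + 3 : ℕ) : ℂ) - 1 = ((d + (l + 1) : ℕ) : ℂ) + 1 := by
    push_cast
    ring
  refine ⟨fun s => Φ (s - 1), ?_, ?_, ?_, ?_⟩
  · intro s hs1
    have hre : (s - 1).re = s.re - 1 := by
      rw [Complex.sub_re, Complex.one_re]
    have h1 := p1 (s - 1) (by rw [hre]; push_cast at hs1 ⊢; linarith)
    have h4 : (fun y : {y : MaximalSpectrum R // N ∉ y.asIdeal} =>
        factor a b n G y.1 ((norm y.1 : ℂ) ^ (-s))) =
        fun y : {y : MaximalSpectrum R // N ∉ y.asIdeal} =>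
          Pool.Agent.R410.EP.ZG (Pool.Agent.Run7.h642.NG.t3 G (Pool.Agent.Run7.h642.NG.tinf a b n G)) y.1
            ((Pool.Agent.TH958.An.qy y.1 : ℂ) ^ (-(s - 1))) := by
      funext y
      refine factor_eq a b n G y.1 s ?_
      have : Finite (R ⧸ y.1.asIdeal) := Pool.Agent.TH958.An.finite_res y.1
      exact (Nat.card_pos (α := R ⧸ y.1.asIdeal)).ne'
    rw [h4]
    exact h1
  · have h5 : Set.MapsTo (fun s : ℂ => s - 1) {s : ℂ | ((d + l + 3 : ℕ) : ℝ) < s.re}
        {s : ℂ | ((d + (l + 1) : ℕ) : ℝ) + 1 < s.re} := by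
      intro t ht
      rw [Set.mem_ofPred_eq] at ht ⊢
      have hre : (t - 1).re = t.re - 1 := by
        rw [Complex.sub_re, Complex.one_re]
      rw [hre]
      push_cast at ht ⊢
      linarith
    exact p2.comp (by fun_prop) h5
  · have p5 : MeromorphicAt Φ ((fun s : ℂ => s - 1) ((d + l + 3 : ℕ) : ℂ)) := by
      show MeromorphicAt Φ (((d + l + 3 : ℕ) : ℂ) - 1)
      rw [e0]
      exact p3
    exact MeromorphicAt.comp_analyticAt (g := fun s : ℂ => s - 1) p5 hsub
  · rw [← e0] at p4
    rw [← p4]
    exact meromorphicOrderAt_comp_sub_const_eq_meromorphicOrderAt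

end Pool.Agent.Results.MP_223b32_ag.FibredSurfaces
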